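import Pool.Agent.Helper89.Vol4.Goals2
import Pool.Agent.Helper47.Vol4.P22

/-!
Packet V47-P22E (MP_cd13d2_co): equality for the extremal pattern.
-/

set_option autoImplicit false

namespace Pool.Agent.Helper34.Vol4.PkP22E

open MeasureTheory Set Pool.Agent.Helper86.Poly Pool.Agent.Helper89.Vol4
open Pool.Agent.Helper47.Vol4.PkP22 (dt_axis nsq coord)

theorem ext4 {u v : E 4} (h0 : u 0 = v 0) (h1 : u 1 = v 1) (h2 : u 2 = v 2) (h3 : u 3 = v 3) :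
    u = v := by
  ext m
  fin_cases m
  · exact h0
  · exact h1
  · exact h2
  · exact h3

/-- the linear map `z ↦ (z0, τ z1, z2 a + z3 c)` -/
noncomputable def fL (τ a2 a3 c2 c3 : ℝ) : E 4 →ₗ[ℝ] E 4 where
  toFun z := !₂[z 0, τ * z 1, z 2 * a2 + z 3 * c2, z 2 * a3 + z 3 * c3]
  map_add' x y := by
    refine ext4 ?_ ?_ ?_ ?_
    · simp
    · simp; ring
    · simp; ring
    · simp; ring
  map_smul' r x := by
    refine ext4 ?_ ?_ ?_ ?_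
    · simp
    · simp; ring
    · simp; ring
    · simp; ring

theorem fL_apply (τ a2 a3 c2 c3 : ℝ) (z : E 4) :
    fL τ a2 a3 c2 c3 z = !₂[z 0, τ * z 1, z 2 * a2 + z 3 * c2, z 2 * a3 + z 3 * c3] := rfl

theorem fL_norm {τ a2 a3 c2 c3 : ℝ} (hτ : τ ^ 2 = 1) (ha : a2 ^ 2 + a3 ^ 2 = 1)
    (hc : c2 ^ 2 + c3 ^ 2 = 1) (hac : a2 * c2 + a3 * c3 = 0) (z : E 4) :
    ‖fL τ a2 a3 c2 c3 z‖ = ‖z‖ := by
  have h1 : ‖fL τ a2 a3 c2 c3 z‖ ^ 2 = ‖z‖ ^ 2 := by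
    rw [nsq, nsq, fL_apply]
    simp only [PiLp.toLp_apply, Matrix.cons_val_zero, Matrix.cons_val_one, Matrix.cons_val]
    linear_combination (z 1) ^ 2 * hτ + (z 2) ^ 2 * ha + (z 3) ^ 2 * hc + 2 * z 2 * z 3 * hac
  exact (sq_eq_sq₀ (norm_nonneg _) (norm_nonneg _)).1 h1

/-- the isometry -/
noncomputable def fI {τ a2 a3 c2 c3 : ℝ} (hτ : τ ^ 2 = 1) (ha : a2 ^ 2 + a3 ^ 2 = 1)
    (hc : c2 ^ 2 + c3 ^ 2 = 1) (hac : a2 * c2 + a3 * c3 = 0) : E 4 ≃ₗᵢ[ℝ] E 4 :=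
  LinearIsometry.toLinearIsometryEquiv ⟨fL τ a2 a3 c2 c3, fL_norm hτ ha hc hac⟩ rfl

theorem fI_apply {τ a2 a3 c2 c3 : ℝ} (hτ : τ ^ 2 = 1) (ha : a2 ^ 2 + a3 ^ 2 = 1)
    (hc : c2 ^ 2 + c3 ^ 2 = 1) (hac : a2 * c2 + a3 * c3 = 0) (z : E 4) :
    fI hτ ha hc hac z = !₂[z 0, τ * z 1, z 2 * a2 + z 3 * c2, z 2 * a3 + z 3 * c3] := rfl

/-- a point at distance at most one half from two points at distance one is their midpoint -/
theorem mid {r2 r3 p2 p3 q2 q3 : ℝ} (h : (q2 - p2) ^ 2 + (q3 - p3) ^ 2 = 1)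
    (h1 : (r2 - p2) ^ 2 + (r3 - p3) ^ 2 ≤ 1 / 4) (h2 : (r2 - q2) ^ 2 + (r3 - q3) ^ 2 ≤ 1 / 4) :
    r2 = (p2 + q2) / 2 ∧ r3 = (p3 + q3) / 2 := by
  have h3 : (r2 - (p2 + q2) / 2) ^ 2 + (r3 - (p3 + q3) / 2) ^ 2 ≤ 0 := by nlinarith
  have h4 : (r2 - (p2 + q2) / 2) ^ 2 = 0 := by
    nlinarith [sq_nonneg (r2 - (p2 + q2) / 2), sq_nonneg (r3 - (p3 + q3) / 2)]
  have h5 : (r3 - (p3 + q3) / 2) ^ 2 = 0 := by
    nlinarith [sq_nonneg (r2 - (p2 + q2) / 2), sq_nonneg (r3 - (p3 + q3) / 2)]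
  exact ⟨sub_eq_zero.1 (pow_eq_zero_iff two_ne_zero |>.1 h4),
    sub_eq_zero.1 (pow_eq_zero_iff two_ne_zero |>.1 h5)⟩

theorem thm (h : G_Q22E) (hF : G_FRM4) : G_P22E := by
  intro N hN hmax y hy hp22
  obtain ⟨L, ε, hε, hdt, he0, he1, he'0, he'1, hn1, hn0⟩ := hF (y 1 - y 0) (y 3 - y 2) (y 2 - y 0)
  obtain ⟨x, hx⟩ : ∃ x : Fin 7 → E 4, ∀ k, x k = L (y k - y 0) := ⟨_, fun k => rfl⟩
  have hsub : ∀ i j, x i - x j = L (y i - y j) := by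
    intro i j
    rw [hx, hx, ← map_sub]
    congr 1
    abel
  have hd : ∀ i j, ‖x i - x j‖ ≤ 1 := by
    intro i j
    rw [hsub, LinearIsometryEquiv.norm_map, ← dist_eq_norm]
    exact hy i j
  have hco : ∀ i j, (x i 0 - x j 0) ^ 2 + (x i 1 - x j 1) ^ 2 + (x i 2 - x j 2) ^ 2 +
      (x i 3 - x j 3) ^ 2 ≤ 1 := fun i j => coord (x i) (x j) (hd i j)
  have hx0 : ∀ m : Fin 4, x 0 m = 0 := by
    intro m
    rw [hx]
    simp
  have e10 : x 1 0 = 0 := by rw [hx]; exact he0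
  have e11 : x 1 1 = 0 := by rw [hx]; exact he1
  have e21 : x 2 1 = 0 := by rw [hx]; exact hn1
  have e20 : 0 ≤ x 2 0 := by rw [hx]; exact hn0
  have hx32 : L (y 3 - y 2) = x 3 - x 2 := (hsub 3 2).symm
  rw [hx32] at he'0 he'1
  have e30 : x 3 0 = x 2 0 := by
    rw [PiLp.sub_apply] at he'0
    exact sub_eq_zero.1 he'0
  have e31 : x 3 1 = 0 := by
    rw [PiLp.sub_apply] at he'1
    rw [← e21]
    exact sub_eq_zero.1 he'1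
  have hl1 : ‖y 1 - y 0‖ ≤ 1 := by
    rw [← dist_eq_norm]
    exact hy 1 0
  have hl2 : ‖y 3 - y 2‖ ≤ 1 := by
    rw [← dist_eq_norm]
    exact hy 3 2
  have hq1 : ‖y 1 - y 0‖ ^ 2 = x 1 2 ^ 2 + x 1 3 ^ 2 := by
    have h1 : ‖y 1 - y 0‖ = ‖x 1‖ := by rw [hx, LinearIsometryEquiv.norm_map]
    rw [h1, nsq, e10, e11]
    ring
  have hq2 : ‖y 3 - y 2‖ ^ 2 = (x 3 2 - x 2 2) ^ 2 + (x 3 3 - x 2 3) ^ 2 := by
    have h1 : ‖y 3 - y 2‖ = ‖x 3 - x 2‖ := by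
      rw [hsub, LinearIsometryEquiv.norm_map]
    rw [h1, nsq, he'0, he'1]
    simp only [PiLp.sub_apply]
    ring
  have hz : ∀ k, x k 0 ^ 2 + x k 1 ^ 2 ≤ 1 - ‖y 1 - y 0‖ ^ 2 / 4 := by
    intro k
    have h0 := hco k 0
    have h1 := hco k 1
    rw [hx0, hx0, hx0, hx0] at h0
    rw [e10, e11] at h1
    rw [hq1]
    nlinarith [sq_nonneg (x k 2 - x 1 2 / 2), sq_nonneg (x k 3 - x 1 3 / 2)]
  have hz2 : ∀ k, (x k 0 - x 2 0) ^ 2 + x k 1 ^ 2 ≤ 1 - ‖y 3 - y 2‖ ^ 2 / 4 := by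
    intro k
    have h0 := hco k 2
    have h1 := hco k 3
    rw [e21] at h0
    rw [e30, e31] at h1
    rw [hq2]
    nlinarith [sq_nonneg (x k 2 - (x 2 2 + x 3 2) / 2), sq_nonneg (x k 3 - (x 2 3 + x 3 3) / 2)]
  have hb : x 2 0 ^ 2 ≤ 1 - (‖y 1 - y 0‖ ^ 2 + ‖y 3 - y 2‖ ^ 2) / 4 := by
    have h1 := hco 2 0
    have h2 := hco 3 0
    have h3 := hco 2 1
    have h4 := hco 3 1
    rw [hx0, hx0, hx0, hx0, e21] at h1
    rw [hx0, hx0, hx0, hx0, e30, e31] at h2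
    rw [e10, e11, e21] at h3
    rw [e10, e11, e30, e31] at h4
    rw [hq1, hq2]
    nlinarith [sq_nonneg ((x 2 2 + x 3 2) - x 1 2), sq_nonneg ((x 2 3 + x 3 3) - x 1 3)]
  have hp : ∀ i j, (x i 0 - x j 0) ^ 2 + (x i 1 - x j 1) ^ 2 ≤ 1 := by
    intro i j
    have := hco i j
    nlinarith [sq_nonneg (x i 2 - x j 2), sq_nonneg (x i 3 - x j 3)]
  obtain ⟨Δ, hΔ⟩ : ∃ Δ : ℝ, Δ = x 1 2 * (x 3 3 - x 2 3) - x 1 3 * (x 3 2 - x 2 2) := ⟨_, rfl⟩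
  have hB : ∀ i j, ε * dt (y 1 - y 0) (y 3 - y 2) (y i - y 0) (y j - y 0) =
      Δ * (x i 0 * x j 1 - x i 1 * x j 0) := by
    intro i j
    rw [← hdt, hx32, ← hx, ← hx, ← hx, hΔ]
    have := dt_axis (x 1) (x 3 - x 2) (x i) (x j) e10 e11 he'0 he'1
    rw [PiLp.sub_apply, PiLp.sub_apply] at this
    exact this
  have hs : ε * p22 y = Δ * (x 2 0 * x 4 1 + (x 4 0 * x 5 1 - x 4 1 * x 5 0) +
      (x 5 0 * x 6 1 - x 5 1 * x 6 0)) := by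
    unfold p22
    rw [mul_add ε, mul_add ε, hB, hB, hB, e21]
    ring
  have hDl : |Δ| ≤ ‖y 1 - y 0‖ * ‖y 3 - y 2‖ := by
    apply abs_le_of_sq_le_sq
    · rw [mul_pow, hq1, hq2, hΔ]
      nlinarith [sq_nonneg (x 1 2 * (x 3 2 - x 2 2) + x 1 3 * (x 3 3 - x 2 3))]
    · positivity
  have ha : |ε| = 1 := by
    rcases hε with rfl | rfl <;> simp
  have hab : |p22 y| = |Δ| * |x 2 0 * x 4 1 + (x 4 0 * x 5 1 - x 4 1 * x 5 0) +
      (x 5 0 * x 6 1 - x 5 1 * x 6 0)| := by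
    rw [← abs_mul, ← hs, abs_mul, ha, one_mul]
  rw [hab] at hp22
  have hval : f4 N ≤ ‖y 1 - y 0‖ * ‖y 3 - y 2‖ * |x 2 0 * x 4 1 +
      (x 4 0 * x 5 1 - x 4 1 * x 5 0) + (x 5 0 * x 6 1 - x 5 1 * x 6 0)| :=
    hp22.trans (mul_le_mul_of_nonneg_right hDl (abs_nonneg _))
  obtain ⟨c1, c2, c3, c4, c5, c6, c7⟩ := h N hN hmax ‖y 1 - y 0‖ ‖y 3 - y 2‖ (x 2 0) (x 4 0) (x 4 1)
    (x 5 0) (x 5 1) (x 6 0) (x 6 1)
    (norm_nonneg _) hl1 (norm_nonneg _) hl2 e20 (hz 4) (hz 5) (hz 6) (hz2 4) (hz2 5) (hz2 6) hb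
    (hp 4 5) (hp 4 6) (hp 5 6) hval
  obtain ⟨hN0, hN1⟩ := hN
  set M := √(3 / 4 - N ^ 2) with hM
  set v := vv N with hv
  have hM2 : M ^ 2 = 3 / 4 - N ^ 2 := Real.sq_sqrt (by nlinarith)
  have hv2 : v ^ 2 = 3 / 4 - (1 / 2 + N) ^ 2 := Real.sq_sqrt (by nlinarith)
  have hv0 : 0 ≤ v := Real.sqrt_nonneg _
  have hM0 : 0 < M := Real.sqrt_pos.2 (by nlinarith)
  have hf : f4 N = M + 2 * (N * v) := by
    have : √(3 - (1 + 2 * N) ^ 2) = 2 * v := by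
      rw [hv, vv, show 3 - (1 + 2 * N) ^ 2 = 2 ^ 2 * (3 / 4 - (1 / 2 + N) ^ 2) by ring,
        Real.sqrt_mul (by norm_num), Real.sqrt_sq (by norm_num)]
    rw [f4, this]
    ring
  have hf0 : 0 < f4 N := by
    rw [hf]
    have := mul_nonneg hN0 hv0
    linarith
  obtain ⟨τ, hτ, d5, d4, d6⟩ : ∃ τ : ℝ, τ ^ 2 = 1 ∧ x 5 1 = τ * M ∧ x 4 1 = τ * v ∧
      x 6 1 = τ * v := by
    rcases c7 with ⟨h1, h2, h3⟩ | ⟨h1, h2, h3⟩
    · exact ⟨1, by norm_num, by rw [h1]; ring, by rw [h2]; ring, by rw [h3]; ring⟩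
    · exact ⟨-1, by norm_num, by rw [h1]; ring, by rw [h2]; ring, by rw [h3]; ring⟩
  have hτa : |τ| = 1 := by
    rw [← sq_eq_sq₀ (abs_nonneg _) zero_le_one, sq_abs, hτ]
    norm_num
  have hsum : x 2 0 * x 4 1 + (x 4 0 * x 5 1 - x 4 1 * x 5 0) +
      (x 5 0 * x 6 1 - x 5 1 * x 6 0) = τ * f4 N := by
    rw [c3, c4, c5, c6, d4, d5, d6, hf]
    ring
  rw [hsum, abs_mul, hτa, one_mul, abs_of_pos hf0] at hp22
  have hΔ1 : 1 ≤ |Δ| := by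
    by_contra hlt
    push Not at hlt
    have := mul_lt_mul_of_pos_right hlt hf0
    linarith
  have hΔ2 : 1 ≤ Δ ^ 2 := by
    rw [← sq_abs]
    nlinarith [abs_nonneg Δ]
  have ha1 : x 1 2 ^ 2 + x 1 3 ^ 2 = 1 := by
    rw [← hq1, c1]
    norm_num
  have hc1 : (x 3 2 - x 2 2) ^ 2 + (x 3 3 - x 2 3) ^ 2 = 1 := by
    rw [← hq2, c2]
    norm_num
  have hac : x 1 2 * (x 3 2 - x 2 2) + x 1 3 * (x 3 3 - x 2 3) = 0 := by
    have h1 : (x 1 2 * (x 3 2 - x 2 2) + x 1 3 * (x 3 3 - x 2 3)) ^ 2 + Δ ^ 2 =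
        (x 1 2 ^ 2 + x 1 3 ^ 2) * ((x 3 2 - x 2 2) ^ 2 + (x 3 3 - x 2 3) ^ 2) := by
      rw [hΔ]
      ring
    rw [ha1, hc1, one_mul] at h1
    have h2 : (x 1 2 * (x 3 2 - x 2 2) + x 1 3 * (x 3 3 - x 2 3)) ^ 2 = 0 :=
      le_antisymm (by linarith) (sq_nonneg _)
    exact pow_eq_zero_iff two_ne_zero |>.1 h2
  have sq1 : (N + 1 / 2) ^ 2 + (τ * v) ^ 2 = 3 / 4 := by
    rw [mul_pow, hτ, hv2]
    ring
  have sq2 : N ^ 2 + (τ * M) ^ 2 = 3 / 4 := by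
    rw [mul_pow, hτ, hM2]
    ring
  -- the last two coordinates
  obtain ⟨r42, r43⟩ : x 4 2 = (0 + x 1 2) / 2 ∧ x 4 3 = (0 + x 1 3) / 2 := by
    refine mid (by rw [sub_zero, sub_zero]; exact ha1) ?_ ?_
    · have := hco 4 0
      rw [hx0, hx0, hx0, hx0, c5, d4] at this
      linarith
    · have := hco 4 1
      rw [e10, e11, c5, d4] at this
      linarith
  obtain ⟨r52, r53⟩ : x 5 2 = (0 + x 1 2) / 2 ∧ x 5 3 = (0 + x 1 3) / 2 := by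
    refine mid (by rw [sub_zero, sub_zero]; exact ha1) ?_ ?_
    · have := hco 5 0
      rw [hx0, hx0, hx0, hx0, c4, d5] at this
      linarith
    · have := hco 5 1
      rw [e10, e11, c4, d5] at this
      linarith
  obtain ⟨s52, s53⟩ : x 5 2 = (x 2 2 + x 3 2) / 2 ∧ x 5 3 = (x 2 3 + x 3 3) / 2 := by
    refine mid hc1 ?_ ?_
    · have := hco 5 2
      rw [e21, c3, c4, d5] at this
      linarith
    · have := hco 5 3
      rw [e31, e30, c3, c4, d5] at this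
      linarith
  obtain ⟨r62, r63⟩ : x 6 2 = (x 2 2 + x 3 2) / 2 ∧ x 6 3 = (x 2 3 + x 3 3) / 2 := by
    refine mid hc1 ?_ ?_
    · have := hco 6 2
      rw [e21, c3, c6, d6] at this
      linarith
    · have := hco 6 3
      rw [e31, e30, c3, c6, d6] at this
      linarith
  have key : ∀ k, fI hτ ha1 hc1 hac (Q4 N k) + !₂[N, 0, x 1 2 / 2, x 1 3 / 2] = x k := by
    intro k
    rw [fI_apply]
    fin_cases k
    · refine ext4 ?_ ?_ ?_ ?_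
      · simp [Q4, hx0]
      · simp [Q4, hx0]
      · simp [Q4, hx0]; ring
      · simp [Q4, hx0]; ring
    · refine ext4 ?_ ?_ ?_ ?_
      · simp [Q4, e10]
      · simp [Q4, e11]
      · simp [Q4]; ring
      · simp [Q4]; ring
    · refine ext4 ?_ ?_ ?_ ?_
      · simp [Q4, c3]; ring
      · simp [Q4, e21]
      · simp [Q4]; linarith
      · simp [Q4]; linarith
    · refine ext4 ?_ ?_ ?_ ?_
      · simp [Q4, e30, c3]; ring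
      · simp [Q4, e31]
      · simp [Q4]; linarith
      · simp [Q4]; linarith
    · refine ext4 ?_ ?_ ?_ ?_
      · simp [Q4, c5]; ring
      · simp [Q4, d4, ← hv]
      · simp [Q4, r42]
      · simp [Q4, r43]
    · refine ext4 ?_ ?_ ?_ ?_
      · simp [Q4, c4]
      · simp [Q4, d5, ← hM]
      · simp [Q4, r52]
      · simp [Q4, r53]
    · refine ext4 ?_ ?_ ?_ ?_
      · simp [Q4, c6]; ring
      · simp [Q4, d6, ← hv]
      · simp [Q4]; linarith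
      · simp [Q4]; linarith
  refine ⟨(((fI hτ ha1 hc1 hac).toIsometryEquiv.trans
    (IsometryEquiv.addRight !₂[N, 0, x 1 2 / 2, x 1 3 / 2])).trans
      L.symm.toIsometryEquiv).trans (IsometryEquiv.addRight (y 0)), fun k => ?_⟩
  change L.symm (fI hτ ha1 hc1 hac (Q4 N k) + !₂[N, 0, x 1 2 / 2, x 1 3 / 2]) + y 0 = y k
  rw [key, hx, LinearIsometryEquiv.symm_apply_apply, sub_add_cancel]

end Pool.Agent.Helper34.Vol4.PkP22E
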