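import Mathlib
import Pool.Agent.Helper89.Vol4.Goals

/-!
Packet V47-PEN (MP_cd13d2_co): the area of the pentagon from below.
-/

set_option autoImplicit false

namespace Pool.Agent.Helper34.Vol4.PkPEN

open MeasureTheory Set Pool.Agent.Helper86.Poly Pool.Agent.Helper89.Vol4

/-- the functional `a p0 + b p1` -/
noncomputable def fn (a b : ℝ) : (Fin 2 → ℝ) →ₗ[ℝ] ℝ :=
  a • LinearMap.proj 0 + b • LinearMap.proj 1

theorem fn_apply (a b : ℝ) (p : Fin 2 → ℝ) : fn a b p = a * p 0 + b * p 1 := by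
  simp [fn]

theorem null {a b c : ℝ} (hb : b ≠ 0) :
    volume {p : Fin 2 → ℝ | a * p 0 + b * p 1 = c} = 0 := by
  have h1 : AffineSubspace.mk' (![0, c / b] : Fin 2 → ℝ) (LinearMap.ker (fn a b)) ≠ ⊤ := by
    intro h
    have h2 : (![0, c / b + 1] : Fin 2 → ℝ) ∈
        AffineSubspace.mk' (![0, c / b] : Fin 2 → ℝ) (LinearMap.ker (fn a b)) := by
      rw [h]
      trivial
    rw [AffineSubspace.mem_mk', LinearMap.mem_ker, fn_apply] at h2
    simp at h2
    exact hb h2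
  have h2 := Measure.addHaar_affineSubspace (volume : Measure (Fin 2 → ℝ)) _ h1
  have h3 : {p : Fin 2 → ℝ | a * p 0 + b * p 1 = c} =
      (AffineSubspace.mk' (![0, c / b] : Fin 2 → ℝ) (LinearMap.ker (fn a b)) :
        Set (Fin 2 → ℝ)) := by
    ext p
    rw [mem_setOf_eq, SetLike.mem_coe, AffineSubspace.mem_mk', LinearMap.mem_ker, fn_apply]
    simp only [vsub_eq_sub, Pi.sub_apply, Matrix.cons_val_zero, Matrix.cons_val_one, sub_zero]
    rw [mul_sub, mul_div_cancel₀ _ hb]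
    constructor
    · intro h; linarith
    · intro h; linarith
  rw [h3]
  exact h2

theorem sub_le {a b c : ℝ} {p : Fin 3 → (Fin 2 → ℝ)} (h : ∀ i, a * p i 0 + b * p i 1 ≤ c) :
    convexHull ℝ (range p) ⊆ {q : Fin 2 → ℝ | a * q 0 + b * q 1 ≤ c} := by
  have e : {q : Fin 2 → ℝ | a * q 0 + b * q 1 ≤ c} = {q : Fin 2 → ℝ | fn a b q ≤ c} := by
    ext q
    rw [mem_setOf_eq, mem_setOf_eq, fn_apply]
  apply convexHull_min
  · rintro _ ⟨i, rfl⟩
    exact h i
  · rw [e]
    exact convex_halfSpace_le (fn a b).isLinear c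

theorem sub_ge {a b c : ℝ} {p : Fin 3 → (Fin 2 → ℝ)} (h : ∀ i, c ≤ a * p i 0 + b * p i 1) :
    convexHull ℝ (range p) ⊆ {q : Fin 2 → ℝ | c ≤ a * q 0 + b * q 1} := by
  have e : {q : Fin 2 → ℝ | c ≤ a * q 0 + b * q 1} = {q : Fin 2 → ℝ | c ≤ fn a b q} := by
    ext q
    rw [mem_setOf_eq, mem_setOf_eq, fn_apply]
  apply convexHull_min
  · rintro _ ⟨i, rfl⟩
    exact h i
  · rw [e]
    exact convex_halfSpace_ge (fn a b).isLinear c

theorem meas (p : Fin 3 → (Fin 2 → ℝ)) : MeasurableSet (convexHull ℝ (range p)) :=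
  ((finite_range p).isCompact_convexHull ℝ).measurableSet

/-- twice the area of a triangle of `Fin 2 → ℝ` -/
theorem tri (hSV : G_SV) (p : Fin 3 → (Fin 2 → ℝ)) :
    2 * volume (convexHull ℝ (range p)) =
      ENNReal.ofReal |(p 1 0 - p 0 0) * (p 2 1 - p 0 1) - (p 1 1 - p 0 1) * (p 2 0 - p 0 0)| := by
  have h := hSV 2 (fun i => WithLp.toLp 2 (p i))
  have h2 : Matrix.det (Matrix.of fun i j : Fin 2 =>
      (fun i => WithLp.toLp 2 (p i) : Fin 3 → E 2) i.succ j -
        (fun i => WithLp.toLp 2 (p i) : Fin 3 → E 2) 0 j) =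
      (p 1 0 - p 0 0) * (p 2 1 - p 0 1) - (p 1 1 - p 0 1) * (p 2 0 - p 0 0) := by
    rw [Matrix.det_fin_two]
    simp
  rw [h2] at h
  rw [← h]
  have h3 : convexHull ℝ (range (fun i => WithLp.toLp 2 (p i) : Fin 3 → E 2)) =
      (@WithLp.ofLp 2 (Fin 2 → ℝ)) ⁻¹' (convexHull ℝ (range p)) := by
    have e1 : (@WithLp.ofLp 2 (Fin 2 → ℝ)) ⁻¹' (convexHull ℝ (range p)) =
        (WithLp.linearEquiv 2 ℝ (Fin 2 → ℝ)).symm '' (convexHull ℝ (range p)) := by
      ext q
      constructor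
      · intro hq
        exact ⟨q.ofLp, hq, rfl⟩
      · rintro ⟨r, hr, rfl⟩
        exact hr
    rw [e1]
    have e2 := (WithLp.linearEquiv 2 ℝ (Fin 2 → ℝ)).symm.toLinearMap.image_convexHull (range p)
    have e3 : (WithLp.linearEquiv 2 ℝ (Fin 2 → ℝ)).symm '' (convexHull ℝ (range p)) =
        (WithLp.linearEquiv 2 ℝ (Fin 2 → ℝ)).symm.toLinearMap '' (convexHull ℝ (range p)) := rfl
    rw [e3, e2]
    congr 1
    rw [← range_comp]
    rfl
  rw [h3, (PiLp.volume_preserving_ofLp (Fin 2)).measure_preimage (meas p).nullMeasurableSet]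
  norm_num [Nat.factorial]

/-- Packet V47-PEN. -/
theorem thm (hSV : G_SV) : G_PEN := by
  intro N hN
  obtain ⟨hN0, hN1⟩ := hN
  set M := √(3 / 4 - N ^ 2) with hM
  set v := vv N with hv
  have hM2 : M ^ 2 = 3 / 4 - N ^ 2 := Real.sq_sqrt (by nlinarith)
  have hv2 : v ^ 2 = 3 / 4 - (1 / 2 + N) ^ 2 := Real.sq_sqrt (by nlinarith)
  have hv0 : 0 ≤ v := Real.sqrt_nonneg _
  have hM0 : 0 ≤ M := Real.sqrt_nonneg _
  have hMv : v ≤ M := by
    have : v ^ 2 ≤ M ^ 2 := by
      rw [hM2, hv2]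
      nlinarith
    exact (sq_le_sq₀ hv0 hM0).1 this
  have hNv : 0 ≤ N * v := mul_nonneg hN0 hv0
  have hf : f4 N = 2 * (N * v) + (v + (M - v)) := by
    have : √(3 - (1 + 2 * N) ^ 2) = 2 * v := by
      rw [hv, vv, show 3 - (1 + 2 * N) ^ 2 = 2 ^ 2 * (3 / 4 - (1 / 2 + N) ^ 2) by ring,
        Real.sqrt_mul (by norm_num), Real.sqrt_sq (by norm_num)]
    rw [f4, this]
    ring
  set q0 : Fin 2 → ℝ := ![-N, 0] with hq0
  set q1 : Fin 2 → ℝ := ![N, 0] with hq1
  set q2 : Fin 2 → ℝ := ![1 / 2, v] with hq2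
  set q3 : Fin 2 → ℝ := ![0, M] with hq3
  set q4 : Fin 2 → ℝ := ![-(1 / 2), v] with hq4
  have hQ : P5 N = ![q0, q1, q2, q3, q4] := rfl
  set p1 : Fin 3 → (Fin 2 → ℝ) := ![q0, q1, q2] with hp1
  set p2 : Fin 3 → (Fin 2 → ℝ) := ![q0, q2, q4] with hp2
  set p3 : Fin 3 → (Fin 2 → ℝ) := ![q2, q3, q4] with hp3
  have v1 : 2 * volume (convexHull ℝ (range p1)) = ENNReal.ofReal (2 * (N * v)) := by
    rw [tri hSV p1]
    congr 1
    rw [show (p1 1 0 - p1 0 0) * (p1 2 1 - p1 0 1) - (p1 1 1 - p1 0 1) * (p1 2 0 - p1 0 0) =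
      2 * (N * v) by simp [hp1, hq0, hq1, hq2]; ring]
    exact abs_of_nonneg (by linarith)
  have v2 : 2 * volume (convexHull ℝ (range p2)) = ENNReal.ofReal v := by
    rw [tri hSV p2]
    congr 1
    rw [show (p2 1 0 - p2 0 0) * (p2 2 1 - p2 0 1) - (p2 1 1 - p2 0 1) * (p2 2 0 - p2 0 0) =
      v by simp [hp2, hq0, hq2, hq4]; ring]
    exact abs_of_nonneg hv0
  have v3 : 2 * volume (convexHull ℝ (range p3)) = ENNReal.ofReal (M - v) := by
    rw [tri hSV p3]
    congr 1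
    rw [show (p3 1 0 - p3 0 0) * (p3 2 1 - p3 0 1) - (p3 1 1 - p3 0 1) * (p3 2 0 - p3 0 0) =
      M - v by simp [hp3, hq2, hq3, hq4]; ring]
    exact abs_of_nonneg (by linarith)
  -- the line through `P0` and `P2`
  have s1 : convexHull ℝ (range p1) ⊆
      {q : Fin 2 → ℝ | -(v * N) ≤ v * q 0 + (-(1 / 2 + N)) * q 1} := by
    apply sub_ge
    intro i
    fin_cases i <;> simp [hp1, hq0, hq1, hq2] <;> nlinarith
  have s2 : convexHull ℝ (range p2) ⊆
      {q : Fin 2 → ℝ | v * q 0 + (-(1 / 2 + N)) * q 1 ≤ -(v * N)} := by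
    apply sub_le
    intro i
    fin_cases i <;> simp [hp2, hq0, hq2, hq4] <;> nlinarith
  -- the line `y = v`
  have s3 : convexHull ℝ (range p1) ⊆ {q : Fin 2 → ℝ | 0 * q 0 + 1 * q 1 ≤ v} := by
    apply sub_le
    intro i
    fin_cases i <;> simp [hp1, hq0, hq1, hq2] <;> linarith
  have s4 : convexHull ℝ (range p2) ⊆ {q : Fin 2 → ℝ | 0 * q 0 + 1 * q 1 ≤ v} := by
    apply sub_le
    intro i
    fin_cases i <;> simp [hp2, hq0, hq2, hq4] <;> linarith
  have s5 : convexHull ℝ (range p3) ⊆ {q : Fin 2 → ℝ | v ≤ 0 * q 0 + 1 * q 1} := by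
    apply sub_ge
    intro i
    fin_cases i <;> simp [hp3, hq2, hq3, hq4] <;> linarith
  have d1 : AEDisjoint volume (convexHull ℝ (range p1)) (convexHull ℝ (range p2)) := by
    refine measure_mono_null ?_ (null (a := v) (b := -(1 / 2 + N)) (c := -(v * N))
      (by linarith))
    rintro q ⟨h1, h2⟩
    exact le_antisymm (s2 h2) (s1 h1)
  have d2 : AEDisjoint volume (convexHull ℝ (range p1) ∪ convexHull ℝ (range p2))
      (convexHull ℝ (range p3)) := by
    refine measure_mono_null ?_ (null (a := 0) (b := 1) (c := v) one_ne_zero)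
    rintro q ⟨h1, h2⟩
    have h3 : 0 * q 0 + 1 * q 1 ≤ v := by
      rcases h1 with h1 | h1
      · exact s3 h1
      · exact s4 h1
    exact le_antisymm h3 (s5 h2)
  have hsum : volume ((convexHull ℝ (range p1) ∪ convexHull ℝ (range p2)) ∪
        convexHull ℝ (range p3)) =
      volume (convexHull ℝ (range p1)) + volume (convexHull ℝ (range p2)) +
        volume (convexHull ℝ (range p3)) := by
    rw [measure_union₀ (meas p3).nullMeasurableSet d2,
      measure_union₀ (meas p2).nullMeasurableSet d1]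
  have hsub : (convexHull ℝ (range p1) ∪ convexHull ℝ (range p2)) ∪
      convexHull ℝ (range p3) ⊆ convexHull ℝ (range (P5 N)) := by
    have m0 : q0 ∈ range (P5 N) := ⟨0, rfl⟩
    have m1 : q1 ∈ range (P5 N) := ⟨1, rfl⟩
    have m2 : q2 ∈ range (P5 N) := ⟨2, rfl⟩
    have m3 : q3 ∈ range (P5 N) := ⟨3, rfl⟩
    have m4 : q4 ∈ range (P5 N) := ⟨4, rfl⟩
    refine union_subset (union_subset (convexHull_mono ?_) (convexHull_mono ?_))
      (convexHull_mono ?_)
    · rintro _ ⟨i, rfl⟩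
      fin_cases i
      · exact m0
      · exact m1
      · exact m2
    · rintro _ ⟨i, rfl⟩
      fin_cases i
      · exact m0
      · exact m2
      · exact m4
    · rintro _ ⟨i, rfl⟩
      fin_cases i
      · exact m2
      · exact m3
      · exact m4
  calc ENNReal.ofReal (f4 N) = ENNReal.ofReal (2 * (N * v)) + ENNReal.ofReal v +
        ENNReal.ofReal (M - v) := by
        rw [← ENNReal.ofReal_add (by linarith) hv0,
          ← ENNReal.ofReal_add (by linarith) (by linarith), hf]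
        congr 1
        ring
    _ = 2 * volume ((convexHull ℝ (range p1) ∪ convexHull ℝ (range p2)) ∪
        convexHull ℝ (range p3)) := by
        rw [hsum, mul_add, mul_add, v1, v2, v3]
    _ ≤ 2 * volume (convexHull ℝ (range (P5 N))) := by
        gcongr

end Pool.Agent.Helper34.Vol4.PkPEN
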